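import Mathlib

set_option autoImplicit false

open MeasureTheory Set
open scoped Pointwise ENNReal

namespace Pool.Agent.TH583.Shadow

/-- one-dimensional: adding a segment to a compact interval. -/
theorem vol_add_Icc {S : Set ℝ} (hc : IsCompact S) (hconv : Convex ℝ S) (hne : S.Nonempty)
    {l : ℝ} (hl : 0 ≤ l) : volume (S + Icc 0 l) = volume S + ENNReal.ofReal l := by
  have hS : S = Icc (sInf S) (sSup S) :=
    eq_Icc_of_connected_compact ⟨hne, hconv.isPreconnected⟩ hc
  have hle : sInf S ≤ sSup S := by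
    obtain ⟨x, hx⟩ := hne
    exact (csInf_le hc.bddBelow hx).trans (le_csSup hc.bddAbove hx)
  rw [hS, Set.Icc_add_Icc hle hl, Real.volume_Icc, Real.volume_Icc,
    ← ENNReal.ofReal_add (by linarith) hl]
  congr 1
  ring

/-- Fubini: extending a set by `[0,l]` in the first coordinate. -/
theorem vol_extend {F : Type*} [MeasurableSpace F] (ν : Measure F) [SFinite ν]
    (C C' : Set (ℝ × F)) (T : Set F) (hC : MeasurableSet C) (hC' : MeasurableSet C')
    (hT : MeasurableSet T) {l : ℝ} (hl : 0 ≤ l)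
    (hTC : T = Prod.snd '' C)
    (hslc : ∀ y, IsCompact {x | (x, y) ∈ C}) (hslconv : ∀ y, Convex ℝ {x | (x, y) ∈ C})
    (hC'eq : ∀ x y, (x, y) ∈ C' ↔ ∃ s ∈ Icc 0 l, (x - s, y) ∈ C) :
    ((volume : Measure ℝ).prod ν) C' = ((volume : Measure ℝ).prod ν) C + ENNReal.ofReal l * ν T := by
  rw [Measure.prod_apply_symm hC', Measure.prod_apply_symm hC]
  have h1 : ∀ y, volume ((fun x : ℝ => (x, y)) ⁻¹' C') =
      volume ((fun x : ℝ => (x, y)) ⁻¹' C) + T.indicator (fun _ => ENNReal.ofReal l) y := by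
    intro y
    by_cases hy : y ∈ T
    · rw [Set.indicator_of_mem hy]
      have hne : ({x | (x, y) ∈ C} : Set ℝ).Nonempty := by
        rw [hTC] at hy
        obtain ⟨⟨x, y'⟩, hx, rfl⟩ := hy
        exact ⟨x, hx⟩
      have := vol_add_Icc (hslc y) (hslconv y) hne hl
      have h2 : (fun x : ℝ => (x, y)) ⁻¹' C' = {x | (x, y) ∈ C} + Icc 0 l := by
        ext x
        simp only [mem_preimage, Set.mem_add, mem_ofPred_eq]
        rw [hC'eq]
        constructor
        · rintro ⟨s, hs, hx⟩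
          exact ⟨x - s, hx, s, hs, by ring⟩
        · rintro ⟨a, ha, s, hs, rfl⟩
          exact ⟨s, hs, by simpa using ha⟩
      rw [h2, this]
      rfl
    · rw [Set.indicator_of_notMem hy, add_zero]
      have h3 : (fun x : ℝ => (x, y)) ⁻¹' C' = ∅ := by
        ext x
        simp only [mem_preimage, mem_empty_iff_false, iff_false]
        rw [hC'eq]
        rintro ⟨s, hs, hx⟩
        exact hy (hTC ▸ ⟨_, hx, rfl⟩)
      have h4 : (fun x : ℝ => (x, y)) ⁻¹' C = ∅ := by
        ext x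
        simp only [mem_preimage, mem_empty_iff_false, iff_false]
        intro hx
        exact hy (hTC ▸ ⟨_, hx, rfl⟩)
      rw [h3, h4]
  simp_rw [h1]
  rw [lintegral_add_right _ (measurable_const.indicator hT), lintegral_indicator_const hT]

/-- cross product in the plane -/
def cross (p z : ℂ) : ℝ := p.re * z.im - p.im * z.re

theorem cross_add (p z w : ℂ) : cross p (z + w) = cross p z + cross p w := by
  simp [cross]; ring

theorem cross_smul (p z : ℂ) (s : ℝ) : cross p (s • z) = s * cross p z := by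
  simp [cross]; ring

/-- linear version -/
noncomputable def crossL (p : ℂ) : ℂ →ₗ[ℝ] ℝ where
  toFun := cross p
  map_add' := cross_add p
  map_smul' := fun s z => cross_smul p z s

theorem crossL_apply (p z : ℂ) : crossL p z = cross p z := rfl

theorem cross_im (p z : ℂ) : cross p z = ((starRingEnd ℂ) p * z).im := by
  simp [cross, Complex.mul_im]; ring

theorem abs_cross_le (p z : ℂ) : |cross p z| ≤ ‖p‖ * ‖z‖ := by
  rw [cross_im]
  refine (Complex.abs_im_le_norm _).trans ?_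
  simp

theorem continuous_cross (p : ℂ) : Continuous (cross p) := by
  unfold cross; fun_prop

/-- `C` has image an interval `[a, a+w]` under the functional `cross p`. -/
def HasW (C : Set ℂ) (p : ℂ) (w : ℝ) : Prop := 0 ≤ w ∧ ∃ a, cross p '' C = Icc a (a + w)

theorem HasW.add {C D : Set ℂ} {p : ℂ} {w v : ℝ} (h : HasW C p w) (h' : HasW D p v) :
    HasW (C + D) p (w + v) := by
  obtain ⟨hw, a, ha⟩ := h
  obtain ⟨hv, b, hb⟩ := h'
  refine ⟨by linarith, a + b, ?_⟩
  have : cross p '' (C + D) = cross p '' C + cross p '' D := by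
    have := Set.image_add (crossL p) (s := C) (t := D)
    exact this
  rw [this, ha, hb, Set.Icc_add_Icc (by linarith) (by linarith)]
  congr 1
  ring

theorem hasW_segment (p q : ℂ) : HasW (segment ℝ 0 q) p |cross p q| := by
  refine ⟨abs_nonneg _, min 0 (cross p q), ?_⟩
  have : cross p '' segment ℝ 0 q = segment ℝ 0 (cross p q) := by
    have h := image_segment ℝ (crossL p).toAffineMap 0 q
    simp only [LinearMap.coe_toAffineMap] at h
    rw [show (crossL p) 0 = 0 from map_zero _] at h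
    exact h
  rw [this, segment_eq_uIcc, uIcc]
  congr 1
  rcases le_total 0 (cross p q) with h | h
  · rw [sup_eq_right.2 h, min_eq_left h, abs_of_nonneg h]; ring
  · rw [sup_eq_left.2 h, min_eq_right h, abs_of_nonpos h]; ring

theorem hasW_ball (p : ℂ) {r : ℝ} (hr : 0 ≤ r) :
    HasW (Metric.closedBall (0 : ℂ) r) p (2 * r * ‖p‖) := by
  refine ⟨by positivity, -(r * ‖p‖), ?_⟩
  ext s
  simp only [mem_image, Metric.mem_closedBall, dist_zero_right, mem_Icc]
  constructor
  · rintro ⟨z, hz, rfl⟩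
    have h1 := abs_cross_le p z
    have h2 : ‖p‖ * ‖z‖ ≤ r * ‖p‖ := by
      rw [mul_comm]; exact mul_le_mul_of_nonneg_right hz (norm_nonneg _)
    have h3 := abs_le.1 (h1.trans h2)
    constructor <;> linarith [h3.1, h3.2]
  · rintro ⟨h1, h2⟩
    have habs : |s| ≤ r * ‖p‖ := by
      rw [abs_le]; constructor <;> linarith
    by_cases hp : p = 0
    · subst hp
      simp only [norm_zero, mul_zero] at habs
      refine ⟨0, by simpa using hr, ?_⟩
      have : s = 0 := by
        have := abs_nonneg s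
        exact abs_eq_zero.1 (le_antisymm habs this)
      rw [this]; simp [cross]
    · have hpn : 0 < ‖p‖ := norm_pos_iff.2 hp
      refine ⟨(s / ‖p‖ ^ 2) • (Complex.I * p), ?_, ?_⟩
      · rw [norm_smul, norm_mul, Complex.norm_I, one_mul, Real.norm_eq_abs, abs_div,
          abs_of_pos (by positivity : (0:ℝ) < ‖p‖ ^ 2), div_mul_eq_mul_div, div_le_iff₀ (by positivity)]
        calc |s| * ‖p‖ ≤ (r * ‖p‖) * ‖p‖ := mul_le_mul_of_nonneg_right habs hpn.le
          _ = r * ‖p‖ ^ 2 := by ring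
      · rw [cross_smul]
        have : cross p (Complex.I * p) = ‖p‖ ^ 2 := by
          rw [← Complex.normSq_eq_norm_sq, Complex.normSq_apply]
          simp [cross]
        rw [this]
        field_simp

/-- planar segment-sum formula -/
theorem planar {C : Set ℂ} (hc : IsCompact C) (hconv : Convex ℝ C) (p : ℂ) {w : ℝ}
    (h : HasW C p w) : volume (C + segment ℝ 0 p) = volume C + ENNReal.ofReal w := by
  obtain ⟨hw, a, ha⟩ := h
  by_cases hp : p = 0
  · subst hp
    have hcr : ∀ z, cross 0 z = 0 := by intro z; simp [cross]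
    have hne : (cross 0 '' C).Nonempty := by rw [ha]; exact nonempty_Icc.2 (by linarith)
    have h1 : cross 0 '' C ⊆ {0} := by
      rintro _ ⟨z, _, rfl⟩; simp [hcr]
    rw [ha] at h1
    have e1 : a = 0 := by simpa using h1 (left_mem_Icc.2 (by linarith))
    have e2 : a + w = 0 := by simpa using h1 (right_mem_Icc.2 (by linarith))
    have e3 : w = 0 := by linarith
    rw [e3]
    simp [segment_same]
  have hpn : 0 < ‖p‖ := norm_pos_iff.2 hp
  -- rotation
  set e : ℂ := (starRingEnd ℂ) p / ‖p‖ with he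
  have hen : ‖e‖ = 1 := by
    rw [he, norm_div, Complex.norm_real, Real.norm_eq_abs, abs_of_pos hpn]
    simp [hpn.ne']
  have heC : e ∈ Submonoid.unitSphere ℂ := by
    change e ∈ Metric.sphere (0 : ℂ) 1
    rw [mem_sphere_zero_iff_norm]; exact hen
  let R : ℂ ≃ₗᵢ[ℝ] ℂ := rotation ⟨e, heC⟩
  have hR : ∀ z, R z = e * z := fun z => rotation_apply _ z
  have hRm : MeasurePreserving R volume volume := R.measurePreserving
  have hvolR : ∀ S : Set ℂ, volume (R '' S) = volume S := by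
    intro S
    have h2 : MeasurePreserving R.toMeasurableEquiv volume volume := hRm
    have h3 := h2.measure_preimage_equiv (R '' S)
    rw [← h3]
    congr 1
    change R ⁻¹' (R '' S) = S
    rw [Set.preimage_image_eq _ R.injective]
  have hRp : R p = (‖p‖ : ℂ) := by
    rw [hR, he, div_mul_eq_mul_div, mul_comm, Complex.mul_conj, Complex.normSq_eq_norm_sq]
    push_cast
    have : (‖p‖ : ℂ) ≠ 0 := by exact_mod_cast hpn.ne'
    field_simp
  have himR : ∀ z, (R z).im = cross p z / ‖p‖ := by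
    intro z
    rw [hR, he, cross_im, div_mul_eq_mul_div, Complex.div_ofReal_im]
  -- transfer to the product
  let Ψ := Complex.measurableEquivRealProd
  have hΨ : MeasurePreserving Ψ volume volume := Complex.volume_preserving_equiv_real_prod
  have hΨa : ∀ z, Ψ z = (z.re, z.im) := fun z => rfl
  have hvolΨ : ∀ S : Set ℂ, volume (Ψ '' S) = volume S := by
    intro S
    have h3 := hΨ.measure_preimage_equiv (Ψ '' S)
    rw [← h3]
    congr 1
    rw [Set.preimage_image_eq _ Ψ.injective]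
  rw [← hvolR (C + segment ℝ 0 p), ← hvolR C, ← hvolΨ (R '' (C + segment ℝ 0 p)), ← hvolΨ (R '' C)]
  have hΨc : Continuous Ψ := by
    change Continuous (fun z : ℂ => (z.re, z.im))
    fun_prop
  have hseg : IsCompact (segment ℝ 0 p) := by
    rw [segment_eq_image]
    exact isCompact_Icc.image (by fun_prop)
  have hK1 : IsCompact (Ψ '' (R '' C)) := (hc.image R.continuous).image hΨc
  have hK2 : IsCompact (Ψ '' (R '' (C + segment ℝ 0 p))) :=
    ((hc.add hseg).image R.continuous).image hΨc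
  have key := vol_extend (F := ℝ) volume (Ψ '' (R '' C)) (Ψ '' (R '' (C + segment ℝ 0 p)))
    (Icc (a / ‖p‖) ((a + w) / ‖p‖)) hK1.measurableSet hK2.measurableSet measurableSet_Icc
    (l := ‖p‖) hpn.le ?_ ?_ ?_ ?_
  · rw [← Measure.volume_eq_prod] at key
    rw [key, Real.volume_Icc, ← ENNReal.ofReal_mul hpn.le]
    congr 2
    field_simp
    ring
  · -- projection
    have : Prod.snd '' (Ψ '' (R '' C)) = (fun s => s / ‖p‖) '' (cross p '' C) := by
      ext y
      simp only [mem_image, exists_exists_and_eq_and, hΨa, himR]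
    rw [this, ha]
    ext y
    simp only [mem_Icc, mem_image]
    constructor
    · rintro ⟨h1, h2⟩
      rw [div_le_iff₀ hpn] at h1
      rw [le_div_iff₀ hpn] at h2
      exact ⟨y * ‖p‖, ⟨h1, h2⟩, by field_simp⟩
    · rintro ⟨s, ⟨h1, h2⟩, rfl⟩
      exact ⟨div_le_div_of_nonneg_right h1 hpn.le, div_le_div_of_nonneg_right h2 hpn.le⟩
  · intro y
    have hcl : IsClosed {x : ℝ | (x, y) ∈ Ψ '' (R '' C)} :=
      hK1.isClosed.preimage (by fun_prop : Continuous fun x : ℝ => (x, y))
    have hb : {x : ℝ | (x, y) ∈ Ψ '' (R '' C)} ⊆ Prod.fst '' (Ψ '' (R '' C)) := by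
      intro x hx
      exact ⟨_, hx, rfl⟩
    exact (hK1.image continuous_fst).of_isClosed_subset hcl hb
  · intro y x1 hx1 x2 hx2 α β hα hβ hαβ
    simp only [mem_ofPred_eq] at hx1 hx2 ⊢
    obtain ⟨z1', ⟨z1, hz1, rfl⟩, hz1'⟩ := hx1
    obtain ⟨z2', ⟨z2, hz2, rfl⟩, hz2'⟩ := hx2
    rw [hΨa, Prod.mk.injEq] at hz1' hz2'
    refine ⟨R (α • z1 + β • z2), ⟨_, hconv hz1 hz2 hα hβ hαβ, rfl⟩, ?_⟩
    rw [hΨa, map_add, map_smul, map_smul]
    simp only [Complex.add_re, Complex.add_im, Complex.smul_re, Complex.smul_im, hz1'.1, hz1'.2,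
      hz2'.1, hz2'.2]
    ext
    · simp
    · simp [← add_mul, hαβ]
  · intro x y
    constructor
    · rintro ⟨_, ⟨_, ⟨c, hcC, d, hd, rfl⟩, rfl⟩, hxy⟩
      rw [segment_eq_image'] at hd
      obtain ⟨θ, hθ, rfl⟩ := hd
      simp only [sub_zero, zero_add] at hxy
      rw [hΨa, map_add, map_smul, hRp] at hxy
      have e1 := congrArg Prod.fst hxy
      have e2 := congrArg Prod.snd hxy
      simp at e1 e2
      refine ⟨θ * ‖p‖, ⟨by have := hθ.1; positivity, ?_⟩, ⟨R c, ⟨c, hcC, rfl⟩, ?_⟩⟩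
      · nlinarith [hθ.2]
      · rw [hΨa]
        ext
        · simp; linarith
        · simpa using e2
    · rintro ⟨s, hs, _, ⟨c, hcC, rfl⟩, hxy⟩
      rw [hΨa] at hxy
      have e1 := congrArg Prod.fst hxy
      have e2 := congrArg Prod.snd hxy
      simp at e1 e2
      refine ⟨R (c + (s / ‖p‖) • p), ⟨_, ⟨c, hcC, (s / ‖p‖) • p, ?_, rfl⟩, rfl⟩, ?_⟩
      · rw [segment_eq_image']
        refine ⟨s / ‖p‖, ⟨div_nonneg hs.1 hpn.le, (div_le_one hpn).2 hs.2⟩, by simp⟩
      · rw [hΨa, map_add, map_smul, hRp]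
        ext
        · simp
          rw [div_mul_cancel₀ _ hpn.ne']
          linarith
        · simpa using e2

theorem isCompact_segment' (q : ℂ) : IsCompact (segment ℝ 0 q) := by
  rw [segment_eq_image]
  exact isCompact_Icc.image (by fun_prop)

/-- area of the sum of a disc and three segments -/
theorem vol_zono {r : ℝ} (hr : 0 ≤ r) (q1 q2 q3 : ℂ) :
    volume (Metric.closedBall (0 : ℂ) r + segment ℝ 0 q1 + segment ℝ 0 q2 + segment ℝ 0 q3) =
      ENNReal.ofReal (Real.pi * r ^ 2 + 2 * r * (‖q1‖ + ‖q2‖ + ‖q3‖) +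
        (|cross q2 q1| + |cross q3 q1| + |cross q3 q2|)) := by
  have c0 : IsCompact (Metric.closedBall (0 : ℂ) r) := isCompact_closedBall _ _
  have v0 : Convex ℝ (Metric.closedBall (0 : ℂ) r) := convex_closedBall _ _
  have c1 := c0.add (isCompact_segment' q1)
  have v1 := v0.add (convex_segment (𝕜 := ℝ) 0 q1)
  have c2 := c1.add (isCompact_segment' q2)
  have v2 := v1.add (convex_segment (𝕜 := ℝ) 0 q2)
  have w1 : HasW (Metric.closedBall (0 : ℂ) r) q1 (2 * r * ‖q1‖) := hasW_ball q1 hr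
  have w2 := (hasW_ball q2 hr).add (hasW_segment q2 q1)
  have w3 := ((hasW_ball q3 hr).add (hasW_segment q3 q1)).add (hasW_segment q3 q2)
  rw [planar c2 v2 q3 w3, planar c1 v1 q2 w2, planar c0 v0 q1 w1, Complex.volume_closedBall]
  have hpi : ENNReal.ofReal r ^ 2 * (NNReal.pi : ENNReal) = ENNReal.ofReal (Real.pi * r ^ 2) := by
    rw [mul_comm, ENNReal.ofReal_mul Real.pi_pos.le, ENNReal.ofReal_pow hr]
    congr 1
    rw [← NNReal.coe_real_pi, ENNReal.ofReal_coe_nnreal]
  have := Real.pi_pos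
  rw [hpi, ← ENNReal.ofReal_add (by positivity) (by positivity),
    ← ENNReal.ofReal_add (by positivity) (by positivity),
    ← ENNReal.ofReal_add (by positivity) (by positivity)]
  congr 1
  ring

/-- the `t`-neighbourhood of a planar zonogon, in `ℝ × ℂ` -/
def Q (Z : Set ℂ) (t : ℝ) : Set (ℝ × ℂ) := {x | ∃ ζ ∈ Z, x.1 ^ 2 + ‖x.2 - ζ‖ ^ 2 ≤ t ^ 2}

theorem isCompact_Q {Z : Set ℂ} (hZ : IsCompact Z) (t : ℝ) : IsCompact (Q Z t) := by
  have hB : IsCompact {p : ℝ × ℂ | p.1 ^ 2 + ‖p.2‖ ^ 2 ≤ t ^ 2} := by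
    apply (isCompact_closedBall (0 : ℝ × ℂ) |t|).of_isClosed_subset
    · exact isClosed_le (by fun_prop) continuous_const
    · rintro ⟨z, v⟩ h
      simp only [mem_ofPred_eq] at h
      rw [mem_closedBall_zero_iff, Prod.norm_def]
      apply max_le
      · rw [Real.norm_eq_abs]
        exact sq_le_sq.1 (by nlinarith [sq_nonneg ‖v‖])
      · have := sq_le_sq.1 (show ‖v‖ ^ 2 ≤ t ^ 2 by nlinarith [sq_nonneg z])
        rwa [abs_norm] at this
  have hQ : Q Z t = (fun p : (ℝ × ℂ) × ℂ => (p.1.1, p.1.2 + p.2)) ''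
      ({p : ℝ × ℂ | p.1 ^ 2 + ‖p.2‖ ^ 2 ≤ t ^ 2} ×ˢ Z) := by
    ext ⟨z, w⟩
    constructor
    · rintro ⟨ζ, hζ, h⟩
      exact ⟨((z, w - ζ), ζ), ⟨h, hζ⟩, by simp⟩
    · rintro ⟨⟨⟨z', v⟩, ζ⟩, ⟨h, hζ⟩, hx⟩
      simp only [Prod.mk.injEq] at hx
      obtain ⟨rfl, rfl⟩ := hx
      exact ⟨ζ, hζ, by simpa using h⟩
  rw [hQ]
  exact (hB.prod hZ).image (by fun_prop)

theorem slice_Q (Z : Set ℂ) {t : ℝ} (z : ℝ) (hz : z ^ 2 ≤ t ^ 2) :
    Prod.mk z ⁻¹' Q Z t = Metric.closedBall (0 : ℂ) (√(t ^ 2 - z ^ 2)) + Z := by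
  ext w
  simp only [Q, mem_preimage, mem_ofPred_eq, Set.mem_add, Metric.mem_closedBall, dist_zero_right]
  have hiff : ∀ v : ℂ, z ^ 2 + ‖v‖ ^ 2 ≤ t ^ 2 ↔ ‖v‖ ≤ √(t ^ 2 - z ^ 2) := by
    intro v
    rw [Real.le_sqrt (norm_nonneg _) (by linarith)]
    constructor <;> intro h <;> linarith
  constructor
  · rintro ⟨ζ, hζ, h⟩
    exact ⟨w - ζ, (hiff _).1 h, ζ, hζ, by ring⟩
  · rintro ⟨v, hv, ζ, hζ, rfl⟩
    refine ⟨ζ, hζ, ?_⟩
    rw [add_sub_cancel_right]
    exact (hiff _).2 hv

theorem slice_Q_empty (Z : Set ℂ) {t : ℝ} (z : ℝ) (hz : ¬ z ^ 2 ≤ t ^ 2) :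
    Prod.mk z ⁻¹' Q Z t = ∅ := by
  ext w
  simp only [Q, mem_preimage, mem_ofPred_eq, mem_empty_iff_false, iff_false]
  rintro ⟨ζ, _, h⟩
  apply hz
  nlinarith [norm_nonneg (w - ζ), sq_nonneg ‖w - ζ‖]

theorem integral_sqrt {t : ℝ} (ht : 0 < t) : ∫ z in (-t)..t, √(t ^ 2 - z ^ 2) = Real.pi * t ^ 2 / 2 := by
  have h := intervalIntegral.integral_comp_mul_left (a := -1) (b := 1)
    (fun z => √(t ^ 2 - z ^ 2)) ht.ne'
  have h2 : (fun x : ℝ => √(t ^ 2 - (t * x) ^ 2)) = fun x => t * √(1 - x ^ 2) := by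
    ext x
    rw [show t ^ 2 - (t * x) ^ 2 = t ^ 2 * (1 - x ^ 2) by ring, Real.sqrt_mul (by positivity),
      Real.sqrt_sq ht.le]
  rw [h2, intervalIntegral.integral_const_mul, integral_sqrt_one_sub_sq] at h
  simp only [mul_neg, mul_one, smul_eq_mul] at h
  have : ∫ z in (-t)..t, √(t ^ 2 - z ^ 2) = t * (t * (Real.pi / 2)) := by
    rw [h, ← mul_assoc, mul_inv_cancel₀ ht.ne', one_mul]
  rw [this]; ring

theorem vol_Q {t : ℝ} (ht : 0 < t) (q1 q2 q3 : ℂ) :
    volume (Q (segment ℝ 0 q1 + segment ℝ 0 q2 + segment ℝ 0 q3) t) =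
      ENNReal.ofReal (4 / 3 * Real.pi * t ^ 3 + Real.pi * t ^ 2 * (‖q1‖ + ‖q2‖ + ‖q3‖) +
        2 * t * (|cross q2 q1| + |cross q3 q1| + |cross q3 q2|)) := by
  set Z := segment ℝ 0 q1 + segment ℝ 0 q2 + segment ℝ 0 q3 with hZ
  set V := ‖q1‖ + ‖q2‖ + ‖q3‖ with hV
  set X := |cross q2 q1| + |cross q3 q1| + |cross q3 q2| with hX
  have hV0 : 0 ≤ V := by positivity
  have hX0 : 0 ≤ X := by positivity
  have hpi := Real.pi_pos
  have hZc : IsCompact Z := ((isCompact_segment' q1).add (isCompact_segment' q2)).add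
    (isCompact_segment' q3)
  have hQc : IsClosed (Q Z t) := (isCompact_Q hZc t).isClosed
  have hf : ∀ z : ℝ, volume (Prod.mk z ⁻¹' Q Z t) = (Icc (-t) t).indicator
      (fun z => ENNReal.ofReal (Real.pi * (t ^ 2 - z ^ 2) + 2 * √(t ^ 2 - z ^ 2) * V + X)) z := by
    intro z
    by_cases hz : z ∈ Icc (-t) t
    · have hz2 : z ^ 2 ≤ t ^ 2 := by nlinarith [hz.1, hz.2]
      rw [Set.indicator_of_mem hz, slice_Q Z z hz2, hZ, ← add_assoc, ← add_assoc,
        vol_zono (Real.sqrt_nonneg _) q1 q2 q3, Real.sq_sqrt (by linarith)]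
    · have hz2 : ¬ z ^ 2 ≤ t ^ 2 := by
        intro h
        apply hz
        exact abs_le.1 (abs_le_of_sq_le_sq h ht.le)
      rw [Set.indicator_of_notMem hz, slice_Q_empty Z z hz2, measure_empty]
  rw [Measure.volume_eq_prod, Measure.prod_apply hQc.measurableSet]
  simp_rw [hf]
  rw [lintegral_indicator measurableSet_Icc]
  have hcont : Continuous fun z : ℝ => Real.pi * (t ^ 2 - z ^ 2) + 2 * √(t ^ 2 - z ^ 2) * V + X := by
    fun_prop
  rw [← ofReal_integral_eq_lintegral_ofReal]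
  · congr 1
    rw [integral_Icc_eq_integral_Ioc, ← intervalIntegral.integral_of_le (by linarith)]
    rw [intervalIntegral.integral_add, intervalIntegral.integral_add]
    · have e1 : ∫ z in (-t)..t, Real.pi * (t ^ 2 - z ^ 2) = 4 / 3 * Real.pi * t ^ 3 := by
        rw [intervalIntegral.integral_const_mul, intervalIntegral.integral_sub (by simp) (by simp)]
        simp
        ring
      have e2 : ∫ z in (-t)..t, 2 * √(t ^ 2 - z ^ 2) * V = Real.pi * t ^ 2 * V := by
        rw [intervalIntegral.integral_mul_const, intervalIntegral.integral_const_mul,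
          integral_sqrt ht]
        ring
      rw [e1, e2, intervalIntegral.integral_const, smul_eq_mul]
      ring
    · apply Continuous.intervalIntegrable; fun_prop
    · apply Continuous.intervalIntegrable; fun_prop
    · apply Continuous.intervalIntegrable; fun_prop
    · apply Continuous.intervalIntegrable; fun_prop
  · exact hcont.continuousOn.integrableOn_Icc
  · filter_upwards [self_mem_ae_restrict measurableSet_Icc] with z hz
    have hz2 : z ^ 2 ≤ t ^ 2 := by nlinarith [hz.1, hz.2]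
    have := Real.sqrt_nonneg (t ^ 2 - z ^ 2)
    have : 0 ≤ t ^ 2 - z ^ 2 := by linarith
    simp only [Pi.zero_apply]
    positivity

end Pool.Agent.TH583.Shadow
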