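import Mathlib
import Pool.Agent.TH583.Shadow

set_option autoImplicit false

open MeasureTheory Set
open scoped Pointwise ENNReal

namespace Pool.Agent.TH583.Shadow

/-- three-space -/
abbrev E3 : Type := EuclideanSpace ℝ (Fin 3)

/-- Adapted coordinates: `x ↦ (⟨u,x⟩, c x)` with `c` complex valued. -/
theorem exists_phi (u : E3) (hu : ‖u‖ = 1) :
    ∃ (Φ : E3 ≃ᵐ ℝ × ℂ) (c : E3 →L[ℝ] ℂ), MeasurePreserving Φ volume volume ∧
      (∀ x, Φ x = (inner ℝ u x, c x)) ∧
      (∀ x y, inner ℝ x y = inner ℝ u x * inner ℝ u y + ((c x).re * (c y).re + (c x).im * (c y).im)) := by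
  have hv : Orthonormal ℝ (({0} : Set (Fin 3)).domRestrict (fun _ : Fin 3 => u)) := by
    constructor
    · rintro ⟨i, hi⟩; simpa [Set.domRestrict] using hu
    · rintro ⟨i, hi⟩ ⟨j, hj⟩ hij
      exfalso; apply hij
      simp only [mem_singleton_iff] at hi hj
      subst hi; subst hj; rfl
  obtain ⟨b, hb⟩ := hv.exists_orthonormalBasis_extension_of_card_eq (by simp)
  have hb0 : b 0 = u := hb 0 (by simp)
  let Φ₁ : E3 ≃ᵐ E3 := b.measurableEquiv
  let Φ₂ : E3 ≃ᵐ (Fin 3 → ℝ) := (MeasurableEquiv.toLp 2 (Fin 3 → ℝ)).symm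
  let Φ₃ : (Fin 3 → ℝ) ≃ᵐ ℝ × (Fin 2 → ℝ) := MeasurableEquiv.piFinSuccAbove (fun _ => ℝ) 0
  let Φ₄ : ℝ × (Fin 2 → ℝ) ≃ᵐ ℝ × ℂ := MeasurableEquiv.prodCongr (MeasurableEquiv.refl ℝ)
    ((MeasurableEquiv.finTwoArrow (α := ℝ)).trans Complex.measurableEquivRealProd.symm)
  have m1 : MeasurePreserving Φ₁ volume volume := b.measurePreserving_measurableEquiv
  have m2 : MeasurePreserving Φ₂ volume volume := EuclideanSpace.volume_preserving_symm_measurableEquiv_toLp _
  have m3 : MeasurePreserving Φ₃ volume volume := volume_preserving_piFinSuccAbove (fun _ : Fin 3 => ℝ) 0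
  have m4 : MeasurePreserving Φ₄ volume volume := by
    have h1 : MeasurePreserving ((MeasurableEquiv.finTwoArrow (α := ℝ)).trans
        Complex.measurableEquivRealProd.symm) volume volume :=
      (Complex.volume_preserving_equiv_real_prod.symm).comp (volume_preserving_finTwoArrow ℝ)
    exact (MeasurePreserving.id volume).prod h1
  let c : E3 →L[ℝ] ℂ := (innerSL ℝ (b 1)).smulRight (1 : ℂ) + (innerSL ℝ (b 2)).smulRight Complex.I
  refine ⟨((Φ₁.trans Φ₂).trans Φ₃).trans Φ₄, c, ((m4.comp m3).comp m2).comp m1, ?_, ?_⟩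
  · intro x
    have e : ∀ i, Φ₁ x i = inner ℝ (b i) x := fun i => b.repr_apply_apply x i
    change Φ₄ (Φ₃ (Φ₂ (Φ₁ x))) = _
    have e2 : Φ₄ (Φ₃ (Φ₂ (Φ₁ x))) = (Φ₁ x 0, ⟨Φ₁ x 1, Φ₁ x 2⟩) := rfl
    rw [e2, e 0, e 1, e 2, hb0]
    refine Prod.ext rfl (Complex.ext ?_ ?_)
    · simp [c]
    · simp [c]
  · intro x y
    have h := b.sum_inner_mul_inner x y
    rw [Fin.sum_univ_three, hb0] at h
    have e : ∀ z : E3, (c z).re = inner ℝ (b 1) z ∧ (c z).im = inner ℝ (b 2) z := by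
      intro z; simp [c]
    rw [(e x).1, (e x).2, (e y).1, (e y).2, ← h, real_inner_comm x u, real_inner_comm x (b 1),
      real_inner_comm x (b 2)]
    ring

/-- the unit cube -/
def K : Set E3 := {x | ∀ i, x i ∈ Icc (0 : ℝ) 1}

/-- box -/
def Box (a b : Fin 3 → ℝ) : Set E3 := {x | ∀ i, x i ∈ Icc (a i) (b i)}

theorem vol_Box (a b : Fin 3 → ℝ) : volume (Box a b) = ∏ i, ENNReal.ofReal (b i - a i) := by
  have h := (EuclideanSpace.volume_preserving_symm_measurableEquiv_toLp (Fin 3)).measure_preimage_equiv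
    (Icc a b)
  rw [Real.volume_Icc_pi] at h
  rw [← h]
  congr 1
  ext x
  simp only [Box, mem_ofPred_eq, mem_preimage, mem_Icc, Pi.le_def]
  constructor
  · intro hx; exact ⟨fun i => (hx i).1, fun i => (hx i).2⟩
  · intro hx i; exact ⟨hx.1 i, hx.2 i⟩

theorem isClosed_Box (a b : Fin 3 → ℝ) : IsClosed (Box a b) := by
  have : Box a b = ⋂ i, {x : E3 | x i ∈ Icc (a i) (b i)} := by
    ext x; simp [Box]
  rw [this]
  refine isClosed_iInter fun i => ?_
  exact isClosed_Icc.preimage (by fun_prop : Continuous fun x : E3 => x i)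

theorem K_eq : K = Box 0 1 := rfl

theorem isCompact_K : IsCompact K := by
  apply (isCompact_closedBall (0 : E3) 2).of_isClosed_subset (isClosed_Box 0 1)
  intro x hx
  rw [mem_closedBall_zero_iff, EuclideanSpace.norm_eq, Real.sqrt_le_left (by norm_num)]
  rw [Fin.sum_univ_three]
  have h0 := hx 0; have h1 := hx 1; have h2 := hx 2
  simp only [Pi.zero_apply, Pi.one_apply, mem_Icc] at h0 h1 h2
  simp only [Real.norm_eq_abs, sq_abs]
  nlinarith [h0.1, h0.2, h1.1, h1.2, h2.1, h2.2]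

theorem convex_K : Convex ℝ K := by
  intro x hx y hy a b ha hb hab i
  have h1 := hx i; have h2 := hy i
  simp only [mem_Icc] at h1 h2 ⊢
  simp only [PiLp.add_apply, PiLp.smul_apply, smul_eq_mul]
  constructor
  · have := mul_nonneg ha h1.1; have := mul_nonneg hb h2.1; linarith
  · nlinarith [mul_le_mul_of_nonneg_left h1.2 ha, mul_le_mul_of_nonneg_left h2.2 hb]

theorem vol_K : volume K = 1 := by
  rw [K_eq, vol_Box]; simp

theorem interior_K : (interior K).Nonempty := by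
  let p : E3 := WithLp.toLp 2 (fun _ => (1 / 2 : ℝ))
  refine ⟨p, ?_⟩
  rw [mem_interior_iff_mem_nhds]
  have : ∀ i : Fin 3, ∀ᶠ x : E3 in nhds p, x i ∈ Icc (0 : ℝ) 1 := by
    intro i
    have hc : ContinuousAt (fun x : E3 => x i) p := by fun_prop
    exact hc (Icc_mem_nhds (by norm_num [p]) (by norm_num [p]))
  exact (Filter.eventually_all.2 this)

/-- a concrete parametrisation of the image of the cube under a linear map -/
theorem image_K (c : E3 →L[ℝ] ℂ) : c '' K =
    segment ℝ 0 (c (EuclideanSpace.single 0 1)) + segment ℝ 0 (c (EuclideanSpace.single 1 1)) +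
      segment ℝ 0 (c (EuclideanSpace.single 2 1)) := by
  have hx : ∀ x : E3, x = x 0 • EuclideanSpace.single 0 (1 : ℝ) + x 1 • EuclideanSpace.single 1 (1 : ℝ)
      + x 2 • EuclideanSpace.single 2 (1 : ℝ) := by
    intro x
    ext i
    fin_cases i <;> simp
  ext w
  constructor
  · rintro ⟨x, hxK, rfl⟩
    rw [hx x, map_add, map_add, map_smul, map_smul, map_smul]
    refine ⟨_, ⟨_, ?_, _, ?_, rfl⟩, _, ?_, rfl⟩
    all_goals rw [segment_eq_image']
    · exact ⟨x 0, hxK 0, by simp⟩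
    · exact ⟨x 1, hxK 1, by simp⟩
    · exact ⟨x 2, hxK 2, by simp⟩
  · rintro ⟨_, ⟨_, h0, _, h1, rfl⟩, _, h2, rfl⟩
    rw [segment_eq_image'] at h0 h1 h2
    obtain ⟨s0, hs0, rfl⟩ := h0
    obtain ⟨s1, hs1, rfl⟩ := h1
    obtain ⟨s2, hs2, rfl⟩ := h2
    refine ⟨s0 • EuclideanSpace.single 0 (1 : ℝ) + s1 • EuclideanSpace.single 1 (1 : ℝ)
      + s2 • EuclideanSpace.single 2 (1 : ℝ), ?_, by simp⟩
    intro i
    fin_cases i <;> simp <;> assumption

theorem vol_image (Φ : E3 ≃ᵐ ℝ × ℂ) (hΦ : MeasurePreserving Φ volume volume) (S : Set E3) :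
    volume (Φ '' S) = volume S := by
  have h3 := hΦ.measure_preimage_equiv (Φ '' S)
  rw [← h3, Set.preimage_image_eq _ Φ.injective]

/-- volume of the cube plus a unit segment -/
theorem vol_K_add (u : E3) (hu : ‖u‖ = 1) (Φ : E3 ≃ᵐ ℝ × ℂ) (c : E3 →L[ℝ] ℂ)
    (hΦ : MeasurePreserving Φ volume volume) (hΦa : ∀ x, Φ x = (inner ℝ u x, c x))
    (hin : ∀ x y, inner ℝ x y = inner ℝ u x * inner ℝ u y +
      ((c x).re * (c y).re + (c x).im * (c y).im)) :
    volume (K + segment ℝ 0 u) = 1 + volume (c '' K) := by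
  have huu : inner ℝ u u = (1 : ℝ) := by rw [real_inner_self_eq_norm_sq, hu]; norm_num
  have hcu : c u = 0 := by
    have h := hin u u
    rw [huu] at h
    apply Complex.ext
    · simp; nlinarith [sq_nonneg (c u).re, sq_nonneg (c u).im]
    · simp; nlinarith [sq_nonneg (c u).re, sq_nonneg (c u).im]
  have hΦc : Continuous Φ := by
    have : (Φ : E3 → ℝ × ℂ) = fun x => (inner ℝ u x, c x) := funext hΦa
    rw [this]; fun_prop
  have hseg : IsCompact (segment ℝ 0 u) := by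
    rw [segment_eq_image]
    exact isCompact_Icc.image (by fun_prop)
  have hK1 : IsCompact (Φ '' K) := isCompact_K.image hΦc
  have hK2 : IsCompact (Φ '' (K + segment ℝ 0 u)) := (isCompact_K.add hseg).image hΦc
  have hT : IsCompact (c '' K) := isCompact_K.image c.continuous
  have key := vol_extend (F := ℂ) volume (Φ '' K) (Φ '' (K + segment ℝ 0 u)) (c '' K)
    hK1.measurableSet hK2.measurableSet hT.measurableSet (l := 1) zero_le_one ?_ ?_ ?_ ?_
  · rw [← Measure.volume_eq_prod, vol_image Φ hΦ, vol_image Φ hΦ, vol_K] at key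
    rw [key]; simp
  · ext w
    simp [hΦa]
  · intro y
    have hcl : IsClosed {x : ℝ | (x, y) ∈ Φ '' K} :=
      hK1.isClosed.preimage (by fun_prop : Continuous fun x : ℝ => (x, y))
    have hb : {x : ℝ | (x, y) ∈ Φ '' K} ⊆ Prod.fst '' (Φ '' K) := by
      intro x hx
      exact ⟨_, hx, rfl⟩
    exact (hK1.image continuous_fst).of_isClosed_subset hcl hb
  · intro y x1 hx1 x2 hx2 α β hα hβ hαβ
    simp only [mem_ofPred_eq] at hx1 hx2 ⊢
    obtain ⟨z1, hz1, hz1'⟩ := hx1
    obtain ⟨z2, hz2, hz2'⟩ := hx2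
    rw [hΦa, Prod.mk.injEq] at hz1' hz2'
    refine ⟨α • z1 + β • z2, convex_K hz1 hz2 hα hβ hαβ, ?_⟩
    rw [hΦa, inner_add_right, inner_smul_right, inner_smul_right, map_add, map_smul, map_smul,
      hz1'.1, hz1'.2, hz2'.1, hz2'.2, ← add_smul, hαβ, one_smul]
    rfl
  · intro x y
    constructor
    · rintro ⟨_, ⟨k, hk, d, hd, rfl⟩, hxy⟩
      rw [segment_eq_image'] at hd
      obtain ⟨θ, hθ, rfl⟩ := hd
      simp only [sub_zero, zero_add] at hxy
      rw [hΦa, inner_add_right, inner_smul_right, map_add, map_smul, hcu, huu] at hxy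
      have e1 := congrArg Prod.fst hxy
      have e2 := congrArg Prod.snd hxy
      simp at e1 e2
      refine ⟨θ, hθ, k, hk, ?_⟩
      rw [hΦa, e2]
      congr 1
      linarith
    · rintro ⟨s, hs, k, hk, hxy⟩
      rw [hΦa] at hxy
      have e1 := congrArg Prod.fst hxy
      have e2 := congrArg Prod.snd hxy
      simp at e1 e2
      refine ⟨k + s • u, ⟨k, hk, s • u, ?_, rfl⟩, ?_⟩
      · rw [segment_eq_image']
        exact ⟨s, hs, by simp⟩
      · rw [hΦa, inner_add_right, inner_smul_right, map_add, map_smul, hcu, huu, e1, e2]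
        simp

/-- volume of a parallel body of a projection of the cube -/
theorem vol_P_add (u : E3) (hu : ‖u‖ = 1) (Φ : E3 ≃ᵐ ℝ × ℂ) (c : E3 →L[ℝ] ℂ)
    (hΦ : MeasurePreserving Φ volume volume) (hΦa : ∀ x, Φ x = (inner ℝ u x, c x))
    (hin : ∀ x y, inner ℝ x y = inner ℝ u x * inner ℝ u y +
      ((c x).re * (c y).re + (c x).im * (c y).im)) {t : ℝ} (ht : 0 < t) :
    volume ((fun x : E3 => x - (inner ℝ u x) • u) '' K + Metric.closedBall (0 : E3) t) =
      volume (Q (c '' K) t) := by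
  have huu : inner ℝ u u = (1 : ℝ) := by rw [real_inner_self_eq_norm_sq, hu]; norm_num
  have hcu : c u = 0 := by
    have h := hin u u
    rw [huu] at h
    apply Complex.ext
    · simp; nlinarith [sq_nonneg (c u).re, sq_nonneg (c u).im]
    · simp; nlinarith [sq_nonneg (c u).re, sq_nonneg (c u).im]
  have hnorm : ∀ x, ‖x‖ ^ 2 = (inner ℝ u x) ^ 2 + ‖c x‖ ^ 2 := by
    intro x
    rw [← real_inner_self_eq_norm_sq, hin, ← Complex.normSq_eq_norm_sq, Complex.normSq_apply]
    ring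
  rw [← hΦ.measure_preimage_equiv (Q (c '' K) t)]
  congr 1
  ext y
  simp only [Set.mem_add, mem_image, exists_exists_and_eq_and, Metric.mem_closedBall,
    dist_zero_right, mem_preimage, Q, mem_ofPred_eq, hΦa]
  have key : ∀ x, ‖y - (x - (inner ℝ u x) • u)‖ ≤ t ↔ inner ℝ u y ^ 2 + ‖c y - c x‖ ^ 2 ≤ t ^ 2 := by
    intro x
    have h1 : ‖y - (x - (inner ℝ u x) • u)‖ ≤ t ↔ ‖y - (x - (inner ℝ u x) • u)‖ ^ 2 ≤ t ^ 2 := by
      rw [sq_le_sq, abs_norm, abs_of_pos ht]
    rw [h1, hnorm]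
    simp only [inner_sub_right, inner_smul_right, map_sub, map_smul, hcu, huu]
    simp
  constructor
  · rintro ⟨x, hx, v, hv, rfl⟩
    refine ⟨x, hx, ?_⟩
    rw [← key x]
    simpa using hv
  · rintro ⟨x, hx, h⟩
    exact ⟨x, hx, y - (x - (inner ℝ u x) • u), (key x).2 h, by abel⟩

end Pool.Agent.TH583.Shadow
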