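import Mathlib
import Pool.Agent.TH583.ShadowE

set_option autoImplicit false

open MeasureTheory Set
open scoped Pointwise ENNReal

namespace Pool.Agent.TH583.Shadow

/-- the six-slab lower bound and the box upper bound for the parallel volume of the cube -/
theorem vol_K_ball_le {t : ℝ} (ht : 0 < t) :
    volume (K + Metric.closedBall (0 : E3) t) ≤ ENNReal.ofReal ((1 + 2 * t) ^ 3) := by
  have hsub : K + Metric.closedBall (0 : E3) t ⊆ Box (fun _ => -t) (fun _ => 1 + t) := by
    rintro _ ⟨x, hx, v, hv, rfl⟩ i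
    rw [mem_closedBall_zero_iff] at hv
    have h1 : |v i| ≤ t := by
      have := PiLp.norm_apply_le v i
      rw [Real.norm_eq_abs] at this
      exact this.trans hv
    have h2 := hx i
    have h3 := abs_le.1 h1
    simp only [PiLp.add_apply, mem_Icc] at h2 ⊢
    constructor <;> linarith [h2.1, h2.2, h3.1, h3.2]
  refine (measure_mono hsub).trans ?_
  rw [vol_Box, Fin.prod_univ_three, ← ENNReal.ofReal_mul (by linarith),
    ← ENNReal.ofReal_mul (by nlinarith)]
  apply ENNReal.ofReal_le_ofReal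
  apply le_of_eq; ring

/-- elongated box in direction `j` -/
def Bx (t : ℝ) (j : Fin 3) : Set E3 :=
  Box (fun i => if i = j then -t else 0) (fun i => if i = j then 1 + t else 1)

theorem Bx_sub {t : ℝ} (ht : 0 < t) (j : Fin 3) : Bx t j ⊆ K + Metric.closedBall (0 : E3) t := by
  intro x hx
  -- clamp the j-th coordinate
  have hj := hx j
  simp only [if_true, mem_Icc] at hj
  set s : ℝ := max 0 (min 1 (x j)) with hs
  refine ⟨x + EuclideanSpace.single j (s - x j), ?_, EuclideanSpace.single j (x j - s), ?_, ?_⟩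
  · intro i
    by_cases hij : i = j
    · subst hij
      simp only [PiLp.add_apply, PiLp.single_apply, if_true]
      rw [add_sub_cancel]
      exact ⟨le_max_left _ _, max_le zero_le_one (min_le_left _ _)⟩
    · have := hx i
      simp only [hij, if_false] at this
      simpa [PiLp.single_apply, hij] using this
  · rw [mem_closedBall_zero_iff, PiLp.norm_single, Real.norm_eq_abs, abs_le]
    rcases le_total 0 (x j) with h0 | h0
    · rcases le_total (x j) 1 with h1 | h1
      · have : s = x j := by rw [hs, min_eq_right h1, max_eq_right h0]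
        rw [this]; constructor <;> linarith
      · have : s = 1 := by rw [hs, min_eq_left h1, max_eq_right zero_le_one]
        rw [this]; constructor <;> linarith [hj.2]
    · have : s = 0 := by rw [hs, min_eq_right (h0.trans zero_le_one), max_eq_left h0]
      rw [this]; constructor <;> linarith [hj.1]
  · ext i
    by_cases hij : i = j
    · subst hij; simp
    · simp [PiLp.single_apply, hij]

theorem vol_Bx {t : ℝ} (ht : 0 < t) (j : Fin 3) : volume (Bx t j) = ENNReal.ofReal (1 + 2 * t) := by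
  rw [Bx, vol_Box, Finset.prod_eq_single j]
  · simp only [if_true]; congr 1; ring
  · intro i _ hij; simp [hij]
  · simp

theorem le_vol_K_ball {t : ℝ} (ht : 0 < t) :
    ENNReal.ofReal (1 + 6 * t) ≤ volume (K + Metric.closedBall (0 : E3) t) := by
  have hsub : (Bx t 0 ∪ Bx t 1) ∪ Bx t 2 ⊆ K + Metric.closedBall (0 : E3) t :=
    union_subset (union_subset (Bx_sub ht 0) (Bx_sub ht 1)) (Bx_sub ht 2)
  refine le_trans ?_ (measure_mono hsub)
  have m : ∀ j, MeasurableSet (Bx t j) := fun j => (isClosed_Box _ _).measurableSet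
  have i1 : Bx t 0 ∩ Bx t 1 ⊆ K := by
    rintro x ⟨h0, h1⟩ i
    have a0 := h0 i; have a1 := h1 i
    fin_cases i
    · simpa using a1
    · simpa using a0
    · simpa using a0
  have i2 : (Bx t 0 ∪ Bx t 1) ∩ Bx t 2 ⊆ K := by
    rintro x ⟨h0 | h0, h1⟩ i
    · have a0 := h0 i; have a1 := h1 i
      fin_cases i
      · simpa using a1
      · simpa using a1
      · simpa using a0
    · have a0 := h0 i; have a1 := h1 i
      fin_cases i
      · simpa using a1
      · simpa using a1
      · simpa using a0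
  have e1 := measure_union_add_inter (μ := volume) (Bx t 0) (m 1)
  have e2 := measure_union_add_inter (μ := volume) (Bx t 0 ∪ Bx t 1) (m 2)
  have b1 : volume (Bx t 0 ∩ Bx t 1) ≤ 1 := vol_K ▸ measure_mono i1
  have b2 : volume ((Bx t 0 ∪ Bx t 1) ∩ Bx t 2) ≤ 1 := vol_K ▸ measure_mono i2
  rw [vol_Bx ht, vol_Bx ht] at e1
  rw [vol_Bx ht] at e2
  -- add up
  have f1 : ENNReal.ofReal (1 + 2 * t) + ENNReal.ofReal (1 + 2 * t) ≤ volume (Bx t 0 ∪ Bx t 1) + 1 := by
    rw [← e1]; exact add_le_add le_rfl b1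
  have f2 : volume (Bx t 0 ∪ Bx t 1) + ENNReal.ofReal (1 + 2 * t) ≤
      volume ((Bx t 0 ∪ Bx t 1) ∪ Bx t 2) + 1 := by
    rw [← e2]; exact add_le_add le_rfl b2
  have f3 : ENNReal.ofReal (1 + 6 * t) + (1 + 1) ≤ volume ((Bx t 0 ∪ Bx t 1) ∪ Bx t 2) + (1 + 1) := by
    calc ENNReal.ofReal (1 + 6 * t) + (1 + 1)
        = ENNReal.ofReal (1 + 2 * t) + ENNReal.ofReal (1 + 2 * t) + ENNReal.ofReal (1 + 2 * t) := by
          rw [← ENNReal.ofReal_one, ← ENNReal.ofReal_add zero_le_one zero_le_one,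
            ← ENNReal.ofReal_add (by positivity) (by norm_num),
            ← ENNReal.ofReal_add (by positivity) (by positivity),
            ← ENNReal.ofReal_add (by positivity) (by positivity)]
          congr 1; ring
      _ ≤ (volume (Bx t 0 ∪ Bx t 1) + 1) + ENNReal.ofReal (1 + 2 * t) := add_le_add f1 le_rfl
      _ = (volume (Bx t 0 ∪ Bx t 1) + ENNReal.ofReal (1 + 2 * t)) + 1 := by ring
      _ ≤ (volume ((Bx t 0 ∪ Bx t 1) ∪ Bx t 2) + 1) + 1 := add_le_add f2 le_rfl
      _ = _ := by ring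
  exact (ENNReal.add_le_add_iff_right (by norm_num)).1 f3

theorem tendsto_steiner_K : Filter.Tendsto (fun t : ℝ =>
    ((volume (K + Metric.closedBall (0 : E3) t)).toReal - (volume K).toReal) / (2 * t))
    (nhdsWithin 0 (Set.Ioi 0)) (nhds 3) := by
  have hup : ∀ t : ℝ, 0 < t → (volume (K + Metric.closedBall (0 : E3) t)).toReal ≤ (1 + 2 * t) ^ 3 := by
    intro t ht
    exact ENNReal.toReal_le_of_le_ofReal (by positivity) (vol_K_ball_le ht)
  have hlo : ∀ t : ℝ, 0 < t → 1 + 6 * t ≤ (volume (K + Metric.closedBall (0 : E3) t)).toReal := by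
    intro t ht
    have hfin : volume (K + Metric.closedBall (0 : E3) t) ≠ ⊤ :=
      ne_top_of_le_ne_top ENNReal.ofReal_ne_top (vol_K_ball_le ht)
    exact (ENNReal.ofReal_le_iff_le_toReal hfin).1 (le_vol_K_ball ht)
  have hK : (volume K).toReal = 1 := by rw [vol_K]; rfl
  rw [hK]
  have hlim : Filter.Tendsto (fun t : ℝ => 3 + 6 * t + 4 * t ^ 2) (nhdsWithin 0 (Set.Ioi 0)) (nhds 3) := by
    have : Filter.Tendsto (fun t : ℝ => 3 + 6 * t + 4 * t ^ 2) (nhds 0) (nhds (3 + 6 * 0 + 4 * 0 ^ 2)) :=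
      Continuous.tendsto (by fun_prop) 0
    simp only [mul_zero, add_zero, ne_eq, OfNat.ofNat_ne_zero, not_false_eq_true, zero_pow] at this
    exact this.mono_left nhdsWithin_le_nhds
  refine tendsto_of_tendsto_of_tendsto_of_le_of_le' tendsto_const_nhds hlim ?_ ?_
  · filter_upwards [self_mem_nhdsWithin] with t ht
    have ht' : (0 : ℝ) < t := ht
    rw [le_div_iff₀ (by positivity)]
    linarith [hlo t ht']
  · filter_upwards [self_mem_nhdsWithin] with t ht
    have ht' : (0 : ℝ) < t := ht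
    rw [div_le_iff₀ (by positivity)]
    nlinarith [hup t ht']

/-- algebra: `V ≤ 1 + X`. -/
theorem alg_bound {a b c A B C : ℝ} (ha : 0 ≤ a) (hb : 0 ≤ b) (hc : 0 ≤ c)
    (hA : 0 ≤ A) (hB : 0 ≤ B) (hC : 0 ≤ C) (hs : a ^ 2 + b ^ 2 + c ^ 2 = 1)
    (hA2 : A ^ 2 = 1 - a ^ 2) (hB2 : B ^ 2 = 1 - b ^ 2) (hC2 : C ^ 2 = 1 - c ^ 2) :
    A + B + C ≤ 1 + (a + b + c) := by
  have h1 : A * B ≤ c + a * b := by
    apply le_of_sq_le_sq _ (by positivity)
    nlinarith [mul_nonneg hc (mul_nonneg ha hb)]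
  have h2 : A * C ≤ b + a * c := by
    apply le_of_sq_le_sq _ (by positivity)
    nlinarith [mul_nonneg hb (mul_nonneg ha hc)]
  have h3 : B * C ≤ a + b * c := by
    apply le_of_sq_le_sq _ (by positivity)
    nlinarith [mul_nonneg ha (mul_nonneg hb hc)]
  apply le_of_sq_le_sq _ (by positivity)
  nlinarith

end Pool.Agent.TH583.Shadow
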